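import Pool.Agent.Q48.MDS.Recipe

/-!
# Q1 is equivalent to power saving asymptotics for the moments on the critical line

The objects are those of the problem (`Pool.Agent.Q48.MDS.Defs`): `kron d n` is the Kronecker
symbol, `A k M z = A_M(s_1, ..., s_k; w)`, `F k M z = F_M(s_1, ..., s_k; w)` with
`z = (w, s_1, ..., s_k) : Fin (k + 1) → ℂ`; `ContinuesTo k M p`: `F_M` extends holomorphically from
the region where all the real parts are greater than `1` to a tube domain containing the real
point `p`, with polynomial bounds in vertical strips; `pt k w = (w, 1/2, ..., 1/2)`,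
`center k = pt k 1`.  `Lc d s` is the entire continuation of `L(s, χ_d)`, `d > 1` (clause 1);
`DD` is the type of the positive fundamental discriminants `d > 1`.

Three statements are compared, for `k`, `M` and a real `w₀`; `ρ_J(t) = 1 - i ∑_{j ∈ J} t_j`.

* `ContinuesTo k M (pt k w₀)`: a statement about a function of `k + 1` complex variables near
  `Re s_j = 1/2`.
* `CritContinues k M w₀`: for every real `t ∈ ℝ^k` the function
  `∏_J (w - ρ_J(t)) ∑_{d > 1} χ_d(M) ∏_j L(1/2 + i t_j, χ_d) d^{-w}` of the single variable `w`
  continues to `Re w > c`, for some `c < w₀`, bounded by a polynomial in `t` and `Im w`.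
* `MomentAsymptotics k M w₀`: for some `r ≥ 1`, `c < w₀`, `N` and all real `t ∈ ℝ^k`, the Riesz mean
  `∑_{1 < d ≤ X} (log (X/d))^r χ_d(M) ∏_j L(1/2 + i t_j, χ_d)` is, up to
  `O((1 + ‖t‖)^N X^c)`, a linear combination of the functions `X^{ρ_J(t)} (log X)^m`, `m` less than
  the number of the `J'` with the same exponent.

Results.

* The first two are equivalent for all `w₀`; all three are equivalent for `0 < w₀ ≤ 1`.
* Hence Q1 is equivalent to power saving asymptotics (`c < 1`) for the moments on the critical line
  with purely imaginary shifts, without twist (`M = 1`), for infinitely many `k`.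
* Asymptotics with error exponent `< w₀` for the moments of order `k + 1` twisted by `χ_d(M)` imply
  the same for the moments of order `k` twisted by `χ_d(M m)`, for every `m`.

Proof: a tube theorem with a flat piece (a tempered function on a tube whose restrictions to the
lines over one real point `(·; 1/2, ..., 1/2)` continue to the left extends to an open tube),
by the Fourier-Laplace transform; Laplace transforms of the Riesz means, Lagrange interpolation
for the polynomial parts; conversely vertical integrals and a chain of first order equations whose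
solutions are the main terms.
-/

set_option autoImplicit false

namespace Pool.Agent.Results.MP_fed7ff_nt.CriticalMoments

open Pool.Agent.Q48.MDS

/-- **Q1 and the moments on the critical line.** -/
theorem result :
    -- `Lc d` is the continued L-function of `χ_d`
    (∀ d : ℕ, FundDisc d → 1 < d → Differentiable ℂ (Lc d) ∧
      ∀ s : ℂ, 1 < s.re → Lc d s = Lchi d s) ∧
    -- the one-variable series on the critical line converges absolutely far to the right
    (∀ (k M : ℕ) (t : Fin k → ℝ) (w : ℂ), 2 * (k : ℝ) + 1 < w.re →
      Summable (fun d : DD => (kron d M : ℂ) * (d : ℂ) ^ (-w) *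
        ∏ j : Fin k, Lc d (1 / 2 + Complex.I * (t j : ℂ)))) ∧
    -- continuation in `k + 1` variables is equivalent to continuation in `w` on the critical line
    (∀ (k M : ℕ) (w₀ : ℝ), ContinuesTo k M (pt k w₀) ↔ CritContinues k M w₀) ∧
    -- and to asymptotics of the moments on the critical line with imaginary shifts
    (∀ (k M : ℕ) (w₀ : ℝ), 0 < w₀ → w₀ ≤ 1 →
      (ContinuesTo k M (pt k w₀) ↔ MomentAsymptotics k M w₀)) ∧
    -- Q1 is equivalent to power saving asymptotics of the untwisted moments, infinitely many `k`
    ((∀ k M : ℕ, 1 ≤ k → 1 ≤ M → ContinuesTo k M (center k)) ↔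
      ∀ K : ℕ, ∃ k ≥ K, MomentAsymptotics k 1 1) ∧
    -- moments of order `k + 1` give all the twisted moments of order `k`
    (∀ k M m : ℕ, 1 ≤ M → 1 ≤ m → ∀ w₀ : ℝ, 0 < w₀ → w₀ ≤ 1 →
      MomentAsymptotics (k + 1) M w₀ → MomentAsymptotics k (M * m) w₀) := by
  refine ⟨fun d h h1 => ⟨differentiable_Lc h h1, fun s hs => Lc_eq_Lchi h h1 hs⟩,
    fun k M t w hw => summable_crit k M t hw,
    fun k M w₀ => continuesTo_iff_crit, fun k M w₀ h0 h1 => continuesTo_iff_moments h0 h1,
    q1_iff_moments, fun k M m hM hm w₀ h0 h1 h => moments_drop hM hm h0 h1 h⟩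

end Pool.Agent.Results.MP_fed7ff_nt.CriticalMoments
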