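import Pool.Agent.Q48.MDS.Lind

/-!
# Continuation above the central point is equivalent to bounds on the critical line

The objects are those of the problem (`Pool.Agent.Q48.MDS.Defs`): `kron d n` is the Kronecker
symbol, `A k M z = A_M(s_1, ..., s_k; w)`, `F k M z = F_M(s_1, ..., s_k; w)` with
`z = (w, s_1, ..., s_k) : Fin (k + 1) → ℂ`; `ContinuesTo k M p`: `F_M` extends holomorphically from
the region where all the real parts are greater than `1` to a tube domain containing the real
point `p`, with polynomial bounds in vertical strips; `pt k w = (w, 1/2, ..., 1/2)`.  Q1 is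
`∀ k M ≥ 1, ContinuesTo k M (pt k 1)`.  `CriticalBound θ`: for every `ε > 0` there is `N` with
`L(1/2 + it, χ_d) ≪ d^{θ + ε} (1 + |t|)^N` for all positive fundamental discriminants `d > 1`; for
`θ = 0` this is the Lindelöf hypothesis in the `d`-aspect with polynomial dependence on `t`.

Results.

* For every `θ ≥ 0` the following are equivalent: `CriticalBound θ`; for all `k, M ≥ 1` the
  function `F_M` continues to the points `(w, 1/2, ..., 1/2)` with `w > 1 + k θ`; for one real `c`,
  `M = 1` and infinitely many `k` it continues to the point `(c + k θ, 1/2, ..., 1/2)`.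
* For a single even `k = 2m`: continuation for `M = 1` to `(w, 1/2, ..., 1/2)` implies
  `CriticalBound (max w 1 / k)`.
* Hence Q1 with `w = 1` replaced by all `w > 1` is equivalent to the Lindelöf hypothesis in the
  `d`-aspect, it is already implied by continuation for `M = 1` and infinitely many `k` to
  `(c, 1/2, ..., 1/2)` with any fixed `c`, and Q1 implies it.

Proof: tube theorem with polynomial bounds, Landau's argument for Dirichlet series with
nonnegative coefficients (`|L(1/2 + it, χ_d)|^{2m}`), Phragmén-Lindelöf for the converse.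
-/

set_option autoImplicit false

namespace Pool.Agent.Results.MP_fed7ff_nt.LindelofEdge

open Pool.Agent.Q48.MDS

/-- **Continuation above the central point and the Lindelöf hypothesis.** -/
theorem result :
    -- the characters of the positive fundamental discriminants `d > 1` exist
    (∀ d : ℕ, FundDisc d → 1 < d → ∃ χ : DirichletCharacter ℂ d, χ ≠ 1 ∧
      ∀ n : ℕ, 1 ≤ n → χ (n : ZMod d) = (kron d n : ℂ)) ∧
    -- for every `θ ≥ 0`, three equivalent statements
    (∀ θ : ℝ, 0 ≤ θ →
      (CriticalBound θ ↔ ∀ k M : ℕ, 1 ≤ k → 1 ≤ M → ∀ w : ℝ, 1 + k * θ < w →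
        ContinuesTo k M (pt k w)) ∧
      (CriticalBound θ ↔ ∃ c : ℝ, ∀ K : ℕ, ∃ k ≥ K, ContinuesTo k 1 (pt k (c + k * θ)))) ∧
    -- a single even number of variables
    (∀ m : ℕ, 1 ≤ m → ∀ w : ℝ, ContinuesTo (2 * m) 1 (pt (2 * m) w) →
      CriticalBound (max w 1 / (2 * m))) ∧
    -- Q1 for `M = 1` and infinitely many `k` implies the Lindelöf hypothesis in the `d`-aspect
    ((∀ K : ℕ, ∃ k ≥ K, ContinuesTo k 1 (center k)) → CriticalBound 0) := by
  refine ⟨fun d h h1 => exists_isChi h h1, fun θ hθ => continuesTo_iff_bound hθ,
    fun m hm w h => bound_of_even hm h, lindelof_of_center⟩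

end Pool.Agent.Results.MP_fed7ff_nt.LindelofEdge
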