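import Pool.Agent.Q48.MDS.Local
import Pool.Agent.Q48.MDS.Glue

/-!
# Continuation of multiple Dirichlet series of quadratic L-functions: reduction to `M = 1`

The objects are those of the problem (`Pool.Agent.Q48.MDS.Defs`): the Kronecker symbol `kron d n`,
the Dirichlet series `Lchi d s = L(s, χ_d)`, `A k M z = A_M(s_1, ..., s_k; w)` (sum over the positive
fundamental discriminants), `F k M z = F_M(s_1, ..., s_k; w)`; the variables are
`z = (w, s_1, ..., s_k) : Fin (k + 1) → ℂ`.  `ContinuesTo k M p` says that `F_M` extends
holomorphically from the region where all the real parts are greater than `1` to a tube domain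
containing the real point `p`, with polynomial bounds in vertical strips; Q1 is
`∀ k M ≥ 1, ContinuesTo k M (center k)`, `center k = (1, 1/2, ..., 1/2)`.

Results.

* The set `D_k(M)` of the points `p` with `ContinuesTo k M p` is convex and closed upwards.
* Dropping a variable: if `(p, y) ∈ D_{k+1}(M)` for some real `y`, then `p ∈ D_k(M m)` for every
  `m ≥ 1`.
* Hence Q1 is equivalent to its case `M = 1` for infinitely many `k`.
* It then also holds for the subfamilies of fundamental discriminants given by any local conditions
  `χ_d(p) = ε(p)` at finitely many primes.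

Proof: Bochner's tube theorem with polynomial bounds (`Pool.Agent.Q48.MDS.bochner`, proved with the
Fourier-Laplace transform) makes the domain convex; it contains the orthant, so all the large
values of the last variable are allowed, where the polar factors containing it do not vanish; then
the coefficient of `m^{-s}` of the Dirichlet series in the last variable is extracted by integration
against a rapidly decreasing kernel, which preserves the domain and the polynomial bounds.
-/

set_option autoImplicit false

namespace Pool.Agent.Results.MP_fed7ff_nt.MonotoneTwists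

open Pool.Agent.Q48.MDS

/-- **The reduction of Q1 to `M = 1` and infinitely many `k`.** -/
theorem result :
    -- the multiple Dirichlet series converges absolutely where all real parts are `> 1`
    (∀ (k M : ℕ) (z : Fin (k + 1) → ℂ), (∀ i, 1 < (z i).re) →
      Summable (fun d : {d : ℕ // FundDisc d} =>
        (kron d M : ℂ) * (d : ℂ) ^ (-(z 0)) * ∏ j : Fin k, Lchi d (z j.succ))) ∧
    -- the set of the points to which `F_M` continues is convex and closed upwards
    (∀ k M : ℕ, Convex ℝ {p : Fin (k + 1) → ℝ | ContinuesTo k M p} ∧
      ∀ p q : Fin (k + 1) → ℝ, ContinuesTo k M p → (∀ i, p i ≤ q i) → ContinuesTo k M q) ∧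
    -- dropping the last variable, at any real value `y` of it, and twisting by any `m`
    (∀ k M m : ℕ, 1 ≤ M → 1 ≤ m → ∀ (p : Fin (k + 1) → ℝ) (y : ℝ),
      ContinuesTo (k + 1) M (Fin.snoc p y : Fin (k + 2) → ℝ) → ContinuesTo k (M * m) p) ∧
    -- Q1 is equivalent to its case `M = 1` for infinitely many `k`
    ((∀ k M : ℕ, 1 ≤ k → 1 ≤ M → ContinuesTo k M (center k)) ↔
      ∀ K : ℕ, ∃ k ≥ K, ContinuesTo k 1 (center k)) ∧
    -- and it implies the same statement for all subfamilies given by local conditions
    ((∀ K : ℕ, ∃ k ≥ K, ContinuesTo k 1 (center k)) →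
      ∀ (k : ℕ) (S : Finset ℕ) (ε : ℕ → ℤ), (∀ p ∈ S, p.Prime) →
        ContinuesToLoc k S ε (center k)) := by
  refine ⟨fun k M z hz => summable_coef k M hz,
    fun k M => ⟨convex_continuesTo k M, fun p q hp hpq => hp.up hpq⟩,
    fun k M m hM hm p y h => continuesTo_drop hM hm h, q1_iff,
    fun h k S ε hS => loc_of_infinitely_many h k S (fun p hp => (hS p hp).one_le) ε⟩

end Pool.Agent.Results.MP_fed7ff_nt.MonotoneTwists
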