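import Pool.Agent.Q48.MDS.ZMain

/-!
# Continuation of multiple Dirichlet series of quadratic L-functions: the range of `Re w`

The objects are those of the problem (`Pool.Agent.Q48.MDS.Defs`): the Kronecker symbol `kron d n`,
the Dirichlet series `Lchi d s = L(s, χ_d)`, `A k M z = A_M(s_1, ..., s_k; w)` (sum over the positive
fundamental discriminants), `F k M z = F_M(s_1, ..., s_k; w)`; the variables are
`z = (w, s_1, ..., s_k) : Fin (k + 1) → ℂ`.  `ContinuesTo k M p` says that `F_M` extends
holomorphically from the region where all the real parts are greater than `1` to a tube domain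
containing the real point `p`, with polynomial bounds in vertical strips.

Result: how far to the left `F_M` can be continued in `w`, whatever the values of `s_1, ..., s_k`,
is decided by the zero-free half-planes of the Riemann zeta function: a point `p` with `Re w = x` is
reached if and only if `ζ(s) ≠ 0` for `Re s > θ`, some `θ < 2x`. In particular always `x > 1/4`; the
line `Re w = 1/2`, which bounds the known region, can be passed only by proving a zero-free
half-plane `Re s > θ`, `θ < 1`; and all `x > 1/4` are reached if and only if the Riemann hypothesis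
holds.

Proof. Going down from `k` variables to none (the first result on this problem) shows that
`(w - 1) ∑_d χ_d(m) d^{-w}` is holomorphic for `Re w ≥ x` for every multiple `m` of `M`. Over the
squarefree integers this is `L(w, ψ) / L(2w, ψ²)`, so a zero `ρ` of zeta with `Re ρ > 2x` must be
compensated by zeros of the numerators at `ρ/2`. Playing `m` against `m p²` isolates
`L(ρ/2, (·/l))`, for all odd squarefree `l > 1`. By the functional equation all these L-functions
vanish at `1 - ρ/2`, to the right of the critical line, which contradicts the positive density of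
the mean value of `L(s, (·/l))` over `l` (Pólya-Vinogradov in both variables). Conversely a zero-free
half-plane gives polynomial bounds for `1/ζ(2w)` (Borel-Carathéodory), uniformly in the twist, and
the variables `s_j` are added one after another.
-/

set_option autoImplicit false

namespace Pool.Agent.Results.MP_fed7ff_nt.ZeroFreeRange

open Pool.Agent.Q48.MDS

/-- **The range of `Re w`.** -/
theorem result :
    -- the real values `x` of `w` reached by the continuation
    (∀ k M : ℕ, 1 ≤ k → 1 ≤ M → ∀ x : ℝ,
      (∃ p : Fin (k + 1) → ℝ, p 0 = x ∧ ContinuesTo k M p) ↔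
        ∃ θ : ℝ, θ < 2 * x ∧ ∀ s : ℂ, θ < s.re → riemannZeta s ≠ 0) ∧
    -- the explicit points reached when `ζ` has no zeros with real part greater than `θ`
    (∀ θ : ℝ, (∀ s : ℂ, θ < s.re → riemannZeta s ≠ 0) → ∀ k M : ℕ, 1 ≤ M →
      ∀ p : Fin (k + 1) → ℝ, θ < 2 * p 0 → (∀ j : Fin k, 6 < p j.succ) → ContinuesTo k M p) ∧
    -- the barrier
    (∀ k M : ℕ, 1 ≤ k → 1 ≤ M → ∀ p : Fin (k + 1) → ℝ, ContinuesTo k M p → 1 / 4 < p 0) ∧
    -- the line `Re w = 1/2`
    (∀ k M : ℕ, 1 ≤ k → 1 ≤ M →
      ((∃ p : Fin (k + 1) → ℝ, p 0 < 1 / 2 ∧ ContinuesTo k M p) ↔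
        ∃ θ : ℝ, θ < 1 ∧ ∀ s : ℂ, θ < s.re → riemannZeta s ≠ 0)) ∧
    -- the line `Re w = 1/4`
    (∀ k M : ℕ, 1 ≤ k → 1 ≤ M →
      ((∀ x : ℝ, 1 / 4 < x → ∃ p : Fin (k + 1) → ℝ, p 0 = x ∧ ContinuesTo k M p) ↔
        RiemannHypothesis)) := by
  refine ⟨fun k M hk hM x => range_iff hk hM x, fun θ hz k M hM p hp hs => continues_of_free hM hz hp hs,
    fun k M hk hM p h => ?_, fun k M hk hM => below_half_iff hk hM, fun k M hk hM => (rh_iff hk hM).symm⟩
  obtain ⟨θ, h1, h2⟩ := exists_free hk hM h
  have := half_le_of_free h2
  linarith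

end Pool.Agent.Results.MP_fed7ff_nt.ZeroFreeRange
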